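import Pool.Agent.Kost.KDefs
import Pool.Agent.Kost.Coord

/-!
# Kostant's conjecture on `V(ρ) ⊗ V(ρ)` for the types B, C, D

`L` is a finite-dimensional complex Lie algebra with nondegenerate Killing form, `H` a Cartan
subalgebra, `b` a base of its root system, and `σ` an enumeration of the simple roots for which the
Cartan matrix is one of Mathlib's matrices `CartanMatrix.B n`, `CartanMatrix.C n`,
`CartanMatrix.D n` (`2 ≤ n` in the last case).

`ρ` is half the sum of the positive roots, and `Kost.IsHighestWeight b μ V` says that `V` is an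
irreducible `L`-module which contains a nonzero vector killed by all positive root spaces and on
which `H` acts by `μ`.

The theorem: if `V` is irreducible of highest weight `ρ` (that is, `V = V(ρ)`) and `μ` is a dominant
integral weight such that `2ρ - μ` is a sum of simple roots with coefficients in `ℕ`, then `V ⊗ V`
has a submodule `N` with a complement `N'`, and `N` is irreducible of highest weight `μ`.
-/

open LieAlgebra LieAlgebra.IsKilling LieModule Module TensorProduct Kost

namespace Pool.Agent.Results.MP_869ec4_al.KostantTensorSquare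

universe u

theorem result {L : Type*} [LieRing L] [LieAlgebra ℂ L] [FiniteDimensional ℂ L] [IsKilling ℂ L]
    (H : LieSubalgebra ℂ L) [H.IsCartanSubalgebra] (b : (rootSystem H).Base) (n : ℕ)
    (σ : Fin n ≃ b.support)
    (htype : (∀ i j, b.cartanMatrix (σ i) (σ j) = CartanMatrix.B n i j) ∨
      (∀ i j, b.cartanMatrix (σ i) (σ j) = CartanMatrix.C n i j) ∨
      (2 ≤ n ∧ ∀ i j, b.cartanMatrix (σ i) (σ j) = CartanMatrix.D n i j))
    (ρ : Dual ℂ H) (hρ : (2 : ℂ) • ρ = ∑ᶠ α : {α : H.root // b.IsPos α}, (rootSystem H).root α.1)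
    (V : Type u) [AddCommGroup V] [Module ℂ V] [LieRingModule L V] [LieModule ℂ L V]
    (hV : IsHighestWeight b ρ V)
    (μ : Dual ℂ H) (hdom : ∀ i ∈ b.support, ∃ k : ℕ, μ (coroot i.1) = k)
    (hle : ∃ c : H.root → ℕ, (2 : ℂ) • ρ - μ = ∑ i ∈ b.support, c i • (rootSystem H).root i) :
    ∃ N N' : LieSubmodule ℂ L (V ⊗[ℂ] V), IsCompl N N' ∧ IsHighestWeight b μ N := by
  classical
  have hρ' : ρ = rho b := by
    have h1 : ρ = (2⁻¹ : ℂ) • ((2 : ℂ) • ρ) := by
      rw [smul_smul, inv_mul_cancel₀ two_ne_zero, one_smul]
    rw [h1, hρ, rho, finsum_eq_sum_of_fintype]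
    congr 1
    refine (Finset.sum_subtype _ (fun α => ?_) _).symm
    simp
  subst hρ'
  rcases htype with h | h | ⟨hn, h⟩
  · exact final_of_KProp b σ (A := (CartanMatrix.B n).transpose)
      (fun i j => by rw [Matrix.transpose_apply]; exact h j i) (QDt.kprop_B n) hV hdom hle
  · exact final_of_KProp b σ (A := (CartanMatrix.C n).transpose)
      (fun i j => by rw [Matrix.transpose_apply]; exact h j i) (QDt.kprop_C n) hV hdom hle
  · exact final_of_KProp b σ (A := (CartanMatrix.D n).transpose)
      (fun i j => by rw [Matrix.transpose_apply]; exact h j i) (QDt.kprop_D hn) hV hdom hle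

end Pool.Agent.Results.MP_869ec4_al.KostantTensorSquare
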